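import Mathlib
import Pool.Agent.H823R3.Pi1Cyclic

set_option autoImplicit false

open MvPolynomial

namespace Pool.Agent.TH166.Deltoid

/-- The polynomial of the affine deltoid. -/
noncomputable def F : MvPolynomial (Fin 2) ℂ :=
  X 0 ^ 2 * X 1 ^ 2 - C 4 * X 0 ^ 3 - C 4 * X 1 ^ 3 + C 18 * X 0 * X 1 - C 27

theorem eval_F (z : Fin 2 → ℂ) : eval z F =
    z 0 ^ 2 * z 1 ^ 2 - 4 * z 0 ^ 3 - 4 * z 1 ^ 3 + 18 * z 0 * z 1 - 27 := by
  simp [F]

theorem eval_F0 (z : Fin 2 → ℂ) : eval z (pderiv 0 F) =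
    2 * z 0 * z 1 ^ 2 - 12 * z 0 ^ 2 + 18 * z 1 := by
  have h10 : (pderiv 0 (X 1 : MvPolynomial (Fin 2) ℂ)) = 0 := pderiv_X_of_ne (by decide)
  have h00 : (pderiv 0 (X 0 : MvPolynomial (Fin 2) ℂ)) = 1 := pderiv_X_self _
  simp only [F, map_sub, map_add, Derivation.leibniz, Derivation.leibniz_pow, h10, h00,
    smul_eq_mul, pderiv_C, nsmul_eq_mul, map_mul, map_pow, eval_X, map_natCast, map_one, map_zero,
    mul_zero, zero_mul, add_zero, zero_add, eval_C]
  push_cast
  ring

theorem eval_F1 (z : Fin 2 → ℂ) : eval z (pderiv 1 F) =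
    2 * z 0 ^ 2 * z 1 - 12 * z 1 ^ 2 + 18 * z 0 := by
  have h10 : (pderiv 1 (X 0 : MvPolynomial (Fin 2) ℂ)) = 0 := pderiv_X_of_ne (by decide)
  have h00 : (pderiv 1 (X 1 : MvPolynomial (Fin 2) ℂ)) = 1 := pderiv_X_self _
  simp only [F, map_sub, map_add, Derivation.leibniz, Derivation.leibniz_pow, h10, h00,
    smul_eq_mul, pderiv_C, nsmul_eq_mul, map_mul, map_pow, eval_X, map_natCast, map_one, map_zero,
    mul_zero, zero_mul, add_zero, zero_add, eval_C]
  push_cast
  ring

/-! ### Irreducibility -/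

/-- coefficients of a polynomial of degree at most six vanishing identically -/
theorem coef_zero {e0 e1 e2 e3 e4 e5 e6 : ℂ} (h : ∀ x : ℂ, e6 * x ^ 6 + e5 * x ^ 5 + e4 * x ^ 4 +
    e3 * x ^ 3 + e2 * x ^ 2 + e1 * x + e0 = 0) : e0 = 0 ∧ e1 = 0 ∧ e4 = 0 ∧ e5 = 0 ∧ e6 = 0 := by
  have hpoly : (Polynomial.C e6 * Polynomial.X ^ 6 + Polynomial.C e5 * Polynomial.X ^ 5 +
      Polynomial.C e4 * Polynomial.X ^ 4 + Polynomial.C e3 * Polynomial.X ^ 3 +
      Polynomial.C e2 * Polynomial.X ^ 2 + Polynomial.C e1 * Polynomial.X +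
      Polynomial.C e0 : Polynomial ℂ) = 0 := by
    apply Polynomial.funext
    intro x
    simpa using h x
  refine ⟨?_, ?_, ?_, ?_, ?_⟩
  · have := congrArg (fun q => Polynomial.coeff q 0) hpoly
    simpa [Polynomial.coeff_X, Polynomial.coeff_C, Polynomial.coeff_X_pow] using this
  · have := congrArg (fun q => Polynomial.coeff q 1) hpoly
    simpa [Polynomial.coeff_X, Polynomial.coeff_C, Polynomial.coeff_X_pow] using this
  · have := congrArg (fun q => Polynomial.coeff q 4) hpoly
    simpa [Polynomial.coeff_X, Polynomial.coeff_C, Polynomial.coeff_X_pow] using this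
  · have := congrArg (fun q => Polynomial.coeff q 5) hpoly
    simpa [Polynomial.coeff_X, Polynomial.coeff_C, Polynomial.coeff_X_pow] using this
  · have := congrArg (fun q => Polynomial.coeff q 6) hpoly
    simpa [Polynomial.coeff_X, Polynomial.coeff_C, Polynomial.coeff_X_pow] using this

/-- no polynomial root -/
theorem no_root (p : Polynomial ℂ) (hp : p ^ 3 - Polynomial.C (1 / 4) * Polynomial.X ^ 2 * p ^ 2
    - Polynomial.C (9 / 2) * Polynomial.X * p + Polynomial.X ^ 3 + Polynomial.C (27 / 4) = 0) :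
    False := by
  have hdeg : p.natDegree ≤ 2 := by
    by_contra hk
    push Not at hk
    have hp0 : p ≠ 0 := by
      rintro rfl
      simp at hk
    have h1 : p ^ 3 = Polynomial.C (1 / 4) * Polynomial.X ^ 2 * p ^ 2
      + Polynomial.C (9 / 2) * Polynomial.X * p - Polynomial.X ^ 3 - Polynomial.C (27 / 4) := by
      linear_combination hp
    have h2 : (p ^ 3).natDegree = 3 * p.natDegree := Polynomial.natDegree_pow _ _
    have h3 : (Polynomial.C (1 / 4) * Polynomial.X ^ 2 * p ^ 2
      + Polynomial.C (9 / 2) * Polynomial.X * p - Polynomial.X ^ 3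
      - Polynomial.C (27 / 4) : Polynomial ℂ).natDegree < 3 * p.natDegree := by
      have a1 : (Polynomial.C (1 / 4) * Polynomial.X ^ 2 * p ^ 2 : Polynomial ℂ).natDegree
          ≤ 2 + 2 * p.natDegree := by
        refine Polynomial.natDegree_mul_le.trans ?_
        refine add_le_add ((Polynomial.natDegree_C_mul_X_pow_le _ _)) ?_
        exact Polynomial.natDegree_pow_le
      have a2 : (Polynomial.C (9 / 2) * Polynomial.X * p : Polynomial ℂ).natDegree
          ≤ 1 + p.natDegree := by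
        refine Polynomial.natDegree_mul_le.trans ?_
        exact add_le_add ((Polynomial.natDegree_C_mul_le _ _).trans Polynomial.natDegree_X_le) le_rfl
      have a3 : (Polynomial.X ^ 3 : Polynomial ℂ).natDegree ≤ 3 := by simp
      have a4 : (Polynomial.C (27 / 4) : Polynomial ℂ).natDegree ≤ 0 := by simp
      have b1 := Polynomial.natDegree_add_le (Polynomial.C (1 / 4) * Polynomial.X ^ 2 * p ^ 2)
        (Polynomial.C (9 / 2) * Polynomial.X * p)
      have b2 := Polynomial.natDegree_sub_le (Polynomial.C (1 / 4) * Polynomial.X ^ 2 * p ^ 2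
        + Polynomial.C (9 / 2) * Polynomial.X * p) (Polynomial.X ^ 3)
      have b3 := Polynomial.natDegree_sub_le (Polynomial.C (1 / 4) * Polynomial.X ^ 2 * p ^ 2
        + Polynomial.C (9 / 2) * Polynomial.X * p - Polynomial.X ^ 3) (Polynomial.C (27 / 4))
      omega
    rw [h1] at h2
    omega
  obtain ⟨a, b, c, rfl⟩ : ∃ a b c : ℂ, p = Polynomial.C a * Polynomial.X ^ 2 +
      Polynomial.C b * Polynomial.X + Polynomial.C c := by
    refine ⟨p.coeff 2, p.coeff 1, p.coeff 0, ?_⟩
    rw [p.as_sum_range_C_mul_X_pow' (n := 3) (by omega)]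
    simp [Finset.sum_range_succ]
    ring
  have key : ∀ x : ℂ, (a ^ 3 - a ^ 2 / 4) * x ^ 6 + (3 * a ^ 2 * b - a * b / 2) * x ^ 5 +
      (3 * a ^ 2 * c + 3 * a * b ^ 2 - (2 * a * c + b ^ 2) / 4) * x ^ 4 +
      (6 * a * b * c + b ^ 3 - b * c / 2 - 9 / 2 * a + 1) * x ^ 3 +
      (3 * a * c ^ 2 + 3 * b ^ 2 * c - c ^ 2 / 4 - 9 / 2 * b) * x ^ 2 +
      (3 * b * c ^ 2 - 9 / 2 * c) * x + (c ^ 3 + 27 / 4) = 0 := by
    intro x
    have h := congrArg (Polynomial.eval x) hp
    simp at h
    linear_combination h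
  obtain ⟨h0, h1, h4, h5, h6⟩ := coef_zero key
  have hc : c ≠ 0 := by
    rintro rfl
    norm_num at h0
  have hb : b ≠ 0 := by
    rintro rfl
    apply hc
    linear_combination (-2 / 9) * h1
  have ha : a = 0 ∨ a = 1 / 4 := by
    have : a ^ 2 * (a - 1 / 4) = 0 := by linear_combination h6
    rcases mul_eq_zero.1 this with h | h
    · left; exact pow_eq_zero_iff (two_ne_zero) |>.1 h
    · right; linear_combination h
  rcases ha with rfl | rfl
  · apply hb
    have : b ^ 2 = 0 := by linear_combination (-4) * h4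
    exact pow_eq_zero_iff (two_ne_zero) |>.1 this
  · apply hb
    linear_combination 16 * h5

theorem irreducible_F : Irreducible F := by
  rw [← MulEquiv.irreducible_iff (finSuccEquiv ℂ 1)]
  set R := MvPolynomial (Fin 1) ℂ
  set Q : Polynomial R := Polynomial.X ^ 3 - Polynomial.C (C (1 / 4) * X 0 ^ 2) * Polynomial.X ^ 2
    - Polynomial.C (C (9 / 2) * X 0) * Polynomial.X + Polynomial.C (X 0 ^ 3 + C (27 / 4)) with hQ
  have hFQ : finSuccEquiv ℂ 1 F = Polynomial.C (C (-4)) * Q := by
    have hx0 : finSuccEquiv ℂ 1 (X 0) = Polynomial.X := finSuccEquiv_X_zero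
    have hx1 : finSuccEquiv ℂ 1 (X 1) = Polynomial.C (X 0) := finSuccEquiv_X_succ (j := 0)
    have hC : ∀ a : ℂ, finSuccEquiv ℂ 1 (C a) = Polynomial.C (C a) := fun a => by
      simp [finSuccEquiv_apply]
    simp only [F, map_sub, map_add, map_mul, map_pow, hx0, hx1, hC, hQ]
    have e1 : (Polynomial.C (C (-4)) : Polynomial R) * Polynomial.C (C (1 / 4)) = -1 := by
      rw [← Polynomial.C_mul, ← C_mul]
      norm_num
    have e2 : (Polynomial.C (C (-4)) : Polynomial R) * Polynomial.C (C (9 / 2)) =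
        - (Polynomial.C (C 18) : Polynomial R) := by
      rw [← Polynomial.C_mul, ← C_mul, ← Polynomial.C_neg, ← C_neg]
      norm_num
    have e3 : (Polynomial.C (C (-4)) : Polynomial R) * Polynomial.C (C (27 / 4)) =
        - (Polynomial.C (C 27) : Polynomial R) := by
      rw [← Polynomial.C_mul, ← C_mul, ← Polynomial.C_neg, ← C_neg]
      norm_num
    have e4 : (Polynomial.C (C (-4)) : Polynomial R) = - (Polynomial.C (C 4) : Polynomial R) := by
      rw [← Polynomial.C_neg, ← C_neg]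
    linear_combination (Polynomial.C (X 0)) ^ 2 * Polynomial.X ^ 2 * e1 +
      (Polynomial.C (X 0)) * Polynomial.X * e2 - e3 - (Polynomial.X ^ 3 + (Polynomial.C (X 0)) ^ 3) * e4
  have hu : IsUnit (Polynomial.C (C (-4)) : Polynomial R) := by
    apply IsUnit.map Polynomial.C
    apply IsUnit.map C
    exact isUnit_iff_ne_zero.2 (by norm_num)
  rw [hFQ, irreducible_isUnit_mul hu]
  have hmon : Q.Monic := by
    rw [hQ]
    monicity!
  have hnd : Q.natDegree = 3 := by
    rw [hQ]
    compute_degree!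
  rw [hmon.irreducible_iff_roots_eq_zero_of_degree_le_three (by omega) (by omega)]
  rw [Multiset.eq_zero_iff_forall_notMem]
  intro r hr
  have hr' := Polynomial.isRoot_of_mem_roots hr
  rw [Polynomial.IsRoot, hQ] at hr'
  have h := congrArg (aeval (fun _ : Fin 1 => (Polynomial.X : Polynomial ℂ))) hr'
  simp only [Polynomial.eval_add, Polynomial.eval_sub, Polynomial.eval_mul, Polynomial.eval_pow,
    Polynomial.eval_X, Polynomial.eval_C, map_add, map_sub, map_mul, map_pow, aeval_X, map_zero,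
    algHom_C] at h
  refine no_root (aeval (fun _ : Fin 1 => (Polynomial.X : Polynomial ℂ)) r) ?_
  have hal : ∀ a : ℂ, algebraMap ℂ (Polynomial ℂ) a = Polynomial.C a := fun a => rfl
  simp only [hal] at h
  linear_combination h

end Pool.Agent.TH166.Deltoid
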