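import Mathlib
import Pool.Agent.TH166.Deltoid

set_option autoImplicit false

open MvPolynomial Set Topology Filter

namespace Pool.Agent.TH166.Deltoid

/-- The parametrisation. -/
noncomputable def φ (s : ℂ) : Fin 2 → ℂ := ![2 * s + (s⁻¹) ^ 2, 2 * s⁻¹ + s ^ 2]

@[simp] theorem φ_zero (s : ℂ) : φ s 0 = 2 * s + (s⁻¹) ^ 2 := rfl
@[simp] theorem φ_one (s : ℂ) : φ s 1 = 2 * s⁻¹ + s ^ 2 := rfl

theorem eval_φ {s : ℂ} (hs : s ≠ 0) : eval (φ s) F = 0 := by
  rw [eval_F, φ_zero, φ_one]
  field_simp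
  ring

theorem eval_φ0 {s : ℂ} (hs : s ≠ 0) : eval (φ s) (pderiv 0 F) * s ^ 4 = 4 * (s ^ 3 - 1) ^ 3 := by
  rw [eval_F0, φ_zero, φ_one]
  field_simp
  ring

theorem eval_φ1 {s : ℂ} (hs : s ≠ 0) : eval (φ s) (pderiv 1 F) * s ^ 5 = - 4 * (s ^ 3 - 1) ^ 3 := by
  rw [eval_F1, φ_zero, φ_one]
  field_simp
  ring

theorem φ_inj {s t : ℂ} (hs : s ≠ 0) (ht : t ≠ 0) (h : φ s = φ t) : s = t := by
  by_contra hne
  have h0 := congrFun h 0
  have h1 := congrFun h 1
  simp only [φ_zero, φ_one] at h0 h1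
  have hst : s - t ≠ 0 := sub_ne_zero.2 hne
  field_simp at h0 h1
  have k0 : 2 * s ^ 2 * t ^ 2 = s + t := by
    apply mul_left_cancel₀ hst
    linear_combination h0
  have k1 : s * t * (s + t) = 2 := by
    apply mul_left_cancel₀ hst
    linear_combination h1
  have k2 : (s * t) ^ 3 = 1 := by
    linear_combination (1 / 2) * k1 + (1 / 2) * s * t * k0
  have k3 : (s - t) ^ 2 = 0 := by
    have : (s - t) ^ 2 = (s + t) ^ 2 - 4 * (s * t) := by ring
    rw [this, ← k0]
    linear_combination 4 * s * t * k2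
  exact hst (pow_eq_zero_iff (two_ne_zero) |>.1 k3)

theorem exists_param {z : Fin 2 → ℂ} (hz : eval z F = 0) : ∃ s : ℂ, s ≠ 0 ∧ φ s = z := by
  rw [eval_F] at hz
  set x := z 0 with hx
  set y := z 1 with hy
  have hzz : z = ![x, y] := by
    ext i; fin_cases i <;> rfl
  by_cases hxy : x ^ 2 - 3 * y = 0
  · have hyx : y = x ^ 2 / 3 := by linear_combination (-1 / 3) * hxy
    have h27 : x ^ 3 = 27 := by
      have : (x ^ 3 - 27) ^ 2 = 0 := by
        rw [hyx] at hz
        linear_combination (-27) * hz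
      have := pow_eq_zero_iff (two_ne_zero) |>.1 this
      linear_combination this
    have hx0 : x ≠ 0 := by
      rintro h
      rw [h] at h27
      norm_num at h27
    refine ⟨x / 3, div_ne_zero hx0 (by norm_num), ?_⟩
    rw [hzz]
    ext i
    fin_cases i
    · show 2 * (x / 3) + ((x / 3)⁻¹) ^ 2 = x
      field_simp
      linear_combination (-1) * h27
    · show 2 * (x / 3)⁻¹ + (x / 3) ^ 2 = y
      rw [hyx]
      field_simp
      linear_combination (-2) * h27
  · set A := x * y - 9 with hA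
    set B := 2 * (x ^ 2 - 3 * y) with hB
    have hB0 : B ≠ 0 := mul_ne_zero two_ne_zero hxy
    have hA0 : A ≠ 0 := by
      intro h
      have h9 : x * y = 9 := by linear_combination h
      have hx3 : x ^ 3 + y ^ 3 = 54 := by
        linear_combination (-1 / 4) * hz + (1 / 4) * (x * y + 9 + 18) * h9
      have hy3 : x ^ 3 * (54 - x ^ 3) = 729 := by
        have : y ^ 3 = 54 - x ^ 3 := by linear_combination hx3
        rw [← this]
        linear_combination ((x * y) ^ 2 + 9 * (x * y) + 81) * h9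
      have hx27 : x ^ 3 = 27 := by
        have : (x ^ 3 - 27) ^ 2 = 0 := by linear_combination (-1) * hy3
        have := pow_eq_zero_iff (two_ne_zero) |>.1 this
        linear_combination this
      have hx0 : x ≠ 0 := by
        rintro h
        rw [h] at hx27
        norm_num at hx27
      apply hxy
      apply mul_left_cancel₀ hx0
      linear_combination hx27 - 3 * h9
    have e1 : 2 * A ^ 3 - x * A ^ 2 * B + B ^ 3 = 0 := by
      rw [hA, hB]
      linear_combination (2 * (27 - x ^ 3)) * hz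
    have e2 : A ^ 3 - y * A * B ^ 2 + 2 * B ^ 3 = 0 := by
      rw [hA, hB]
      linear_combination (-4 * x ^ 3 + 9 * x * y + 27) * hz
    refine ⟨A / B, div_ne_zero hA0 hB0, ?_⟩
    rw [hzz]
    ext i
    fin_cases i
    · show 2 * (A / B) + ((A / B)⁻¹) ^ 2 = x
      field_simp
      linear_combination e1
    · show 2 * (A / B)⁻¹ + (A / B) ^ 2 = y
      field_simp
      linear_combination e2

end Pool.Agent.TH166.Deltoid
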