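import Mathlib
import Pool.Agent.TH166.Deltoid2

set_option autoImplicit false

open MvPolynomial Set Topology Filter

namespace Pool.Agent.TH166.Deltoid

/-- the parametrisation on the punctured plane -/
noncomputable def ψ (s : {z : ℂ // z ≠ 0}) : Fin 2 → ℂ := φ s.1

theorem continuous_ψ : Continuous ψ := by
  refine continuous_pi ?_
  have h : Continuous fun s : {z : ℂ // z ≠ 0} => (s.1)⁻¹ :=
    Continuous.inv₀ continuous_subtype_val (fun s => s.2)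
  intro i
  fin_cases i
  · exact ((continuous_const.mul continuous_subtype_val).add (h.pow 2))
  · exact ((continuous_const.mul h).add (continuous_subtype_val.pow 2))

theorem bound_of_cubic {s x y : ℂ} {R : ℝ} (hR : 1 ≤ R) (hx : ‖x‖ ≤ R) (hy : ‖y‖ ≤ R)
    (h : s ^ 3 = x * s ^ 2 - y * s + 1) : ‖s‖ ≤ 3 * R := by
  by_contra hlt
  push Not at hlt
  have h1 : 1 ≤ ‖s‖ := by linarith
  have h2 : ‖s‖ ^ 3 ≤ R * ‖s‖ ^ 2 + R * ‖s‖ + 1 := by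
    calc ‖s‖ ^ 3 = ‖s ^ 3‖ := (norm_pow _ _).symm
      _ = ‖x * s ^ 2 - y * s + 1‖ := by rw [h]
      _ ≤ ‖x * s ^ 2‖ + ‖y * s‖ + ‖(1 : ℂ)‖ := by
        refine (norm_add_le _ _).trans ?_
        gcongr
        exact norm_sub_le _ _
      _ = ‖x‖ * ‖s‖ ^ 2 + ‖y‖ * ‖s‖ + 1 := by
        rw [norm_mul, norm_mul, norm_pow, norm_one]
      _ ≤ _ := by gcongr
  have h3 : R * ‖s‖ ≤ R * ‖s‖ ^ 2 := by
    have : ‖s‖ ≤ ‖s‖ ^ 2 := by nlinarith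
    nlinarith
  have h4 : (1 : ℝ) ≤ R * ‖s‖ ^ 2 := by
    have : (1 : ℝ) ≤ ‖s‖ ^ 2 := by nlinarith
    nlinarith
  have h5 : ‖s‖ ^ 3 ≤ 3 * R * ‖s‖ ^ 2 := by linarith
  have h6 : 0 < ‖s‖ ^ 2 := by positivity
  have h7 : ‖s‖ ^ 3 = ‖s‖ * ‖s‖ ^ 2 := by ring
  rw [h7] at h5
  have := le_of_mul_le_mul_right h5 h6
  linarith

theorem φ_cubic {s : ℂ} (hs : s ≠ 0) : s ^ 3 = φ s 0 * s ^ 2 - φ s 1 * s + 1 := by
  rw [φ_zero, φ_one]
  field_simp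
  ring

theorem φ_cubic' {s : ℂ} (hs : s ≠ 0) : (s⁻¹) ^ 3 = φ s 1 * (s⁻¹) ^ 2 - φ s 0 * s⁻¹ + 1 := by
  rw [φ_zero, φ_one]
  field_simp
  ring

theorem isProperMap_ψ : IsProperMap ψ := by
  rw [isProperMap_iff_isCompact_preimage]
  refine ⟨continuous_ψ, fun K hK => ?_⟩
  obtain ⟨R, hR⟩ := hK.isBounded.exists_norm_le
  set R' := max R 1 with hR'
  have hR1 : 1 ≤ R' := le_max_right _ _
  have hmem : ∀ s : ℂ, s ≠ 0 → φ s ∈ K → ‖s‖ ≤ 3 * R' ∧ ‖s⁻¹‖ ≤ 3 * R' := by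
    intro s hs hsK
    have h0 : ‖φ s 0‖ ≤ R' := (norm_le_pi_norm (φ s) 0).trans ((hR _ hsK).trans (le_max_left _ _))
    have h1 : ‖φ s 1‖ ≤ R' := (norm_le_pi_norm (φ s) 1).trans ((hR _ hsK).trans (le_max_left _ _))
    exact ⟨bound_of_cubic hR1 h0 h1 (φ_cubic hs), bound_of_cubic hR1 h1 h0 (φ_cubic' hs)⟩
  rw [Subtype.isCompact_iff]
  set A : Set ℂ := {s | ‖s‖ ≤ 3 * R' ∧ 1 ≤ 3 * R' * ‖s‖} with hA
  have hAc : IsCompact A := by
    have hcl : IsClosed A := by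
      refine (isClosed_le continuous_norm continuous_const).inter
        (isClosed_le continuous_const (continuous_const.mul continuous_norm))
    refine Metric.isCompact_of_isClosed_isBounded hcl ?_
    refine (Metric.isBounded_closedBall (x := (0 : ℂ)) (r := 3 * R')).subset ?_
    intro s hs
    simpa using hs.1
  have hA0 : ∀ s ∈ A, s ≠ 0 := by
    rintro s ⟨-, h⟩ rfl
    norm_num at h
  have hφA : ContinuousOn φ A := by
    refine continuousOn_pi.2 ?_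
    have h : ContinuousOn (fun s : ℂ => s⁻¹) A := continuousOn_inv₀.mono (fun s hs => hA0 s hs)
    intro i
    fin_cases i
    · exact ((continuousOn_const.mul continuousOn_id).add (h.pow 2))
    · exact ((continuousOn_const.mul h).add (continuousOn_id.pow 2))
  have himg : (Subtype.val '' (ψ ⁻¹' K)) = A ∩ φ ⁻¹' K := by
    ext s
    constructor
    · rintro ⟨⟨s, hs⟩, hsK, rfl⟩
      obtain ⟨h1, h2⟩ := hmem s hs hsK
      refine ⟨⟨h1, ?_⟩, hsK⟩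
      rw [norm_inv] at h2
      have hpos : 0 < ‖s‖ := norm_pos_iff.2 hs
      have := mul_le_mul_of_nonneg_right h2 hpos.le
      rwa [inv_mul_cancel₀ hpos.ne'] at this
    · rintro ⟨h1, h2⟩
      exact ⟨⟨s, hA0 s h1⟩, h2, rfl⟩
  rw [himg]
  obtain ⟨u, hu, hu'⟩ := (continuousOn_iff_isClosed.1 hφA) K hK.isClosed
  rw [inter_comm, hu']
  exact (hAc.inter_left hu)

theorem isClosedEmbedding_ψ : IsClosedEmbedding ψ :=
  IsClosedEmbedding.of_continuous_injective_isClosedMap continuous_ψ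
    (fun a b h => Subtype.ext (φ_inj a.2 b.2 h)) isProperMap_ψ.isClosedMap

theorem range_ψ : range ψ = {z : Fin 2 → ℂ | eval z F = 0} := by
  ext z
  constructor
  · rintro ⟨s, rfl⟩
    exact eval_φ s.2
  · intro hz
    obtain ⟨s, hs, h⟩ := exists_param hz
    exact ⟨⟨s, hs⟩, h⟩

/-- The affine deltoid is homeomorphic to the punctured plane. -/
noncomputable def homeo : {z : ℂ // z ≠ 0} ≃ₜ {z : Fin 2 → ℂ | eval z F = 0} :=
  (isClosedEmbedding_ψ.isEmbedding.toHomeomorph).trans (Homeomorph.setCongr range_ψ)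

/-! ### The cusps -/

/-- monotonicity along rays -/
theorem ray_aux {w : ℂ} (hw : ‖w‖ < 1 / 10) {t : ℝ} (ht0 : 0 < t) (ht1 : t ≤ 1) :
    ‖φ (1 + t * w) 0 - 3‖ ≤ ‖φ (1 + w) 0 - 3‖ ∧ ‖φ (1 + t * w) 1 - 3‖ ≤ ‖φ (1 + w) 1 - 3‖ := by
  have hlow : ∀ v : ℂ, ‖v‖ < 1 / 10 → 9 / 10 ≤ ‖1 + v‖ := by
    intro v hv
    have : ‖(1 : ℂ)‖ ≤ ‖1 + v‖ + ‖v‖ := by
      calc ‖(1 : ℂ)‖ = ‖(1 + v) - v‖ := by ring_nf
        _ ≤ _ := norm_sub_le _ _
    rw [norm_one] at this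
    linarith
  have htw : ‖(t : ℂ) * w‖ < 1 / 10 := by
    rw [norm_mul, Complex.norm_real, Real.norm_of_nonneg ht0.le]
    have := norm_nonneg w
    nlinarith
  have h1w : 9 / 10 ≤ ‖1 + w‖ := hlow w hw
  have h1t : 9 / 10 ≤ ‖1 + t * w‖ := hlow _ htw
  have hne1 : (1 + w) ≠ 0 := by
    intro h; rw [h] at h1w; norm_num at h1w
  have hne2 : (1 + (t : ℂ) * w) ≠ 0 := by
    intro h; rw [h] at h1t; norm_num at h1t
  have e0 : ∀ v : ℂ, 1 + v ≠ 0 → φ (1 + v) 0 - 3 = v ^ 2 * (3 + 2 * v) / (1 + v) ^ 2 := by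
    intro v hv
    rw [φ_zero]
    field_simp
    ring
  have e1 : ∀ v : ℂ, 1 + v ≠ 0 → φ (1 + v) 1 - 3 = v ^ 2 * (3 + v) / (1 + v) := by
    intro v hv
    rw [φ_one]
    field_simp
    ring
  -- comparison estimates
  have ht' : 0 ≤ 1 - t := by linarith
  have hd : ‖w - t * w‖ ≤ (1 - t) * (1 / 10) := by
    have : w - t * w = ((1 - t : ℝ) : ℂ) * w := by push_cast; ring
    rw [this, norm_mul, Complex.norm_real, Real.norm_of_nonneg ht']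
    gcongr
  have c1 : ‖1 + w‖ ≤ (1 + (1 - t) / 4) * ‖1 + t * w‖ := by
    have : ‖1 + w‖ ≤ ‖1 + t * w‖ + ‖w - t * w‖ := by
      calc ‖1 + w‖ = ‖(1 + t * w) + (w - t * w)‖ := by ring_nf
        _ ≤ _ := norm_add_le _ _
    nlinarith
  have hlow2 : 28 / 10 ≤ ‖3 + 2 * w‖ := by
    have : ‖(3 : ℂ)‖ ≤ ‖3 + 2 * w‖ + ‖2 * w‖ := by
      calc ‖(3 : ℂ)‖ = ‖(3 + 2 * w) - 2 * w‖ := by ring_nf
        _ ≤ _ := norm_sub_le _ _
    rw [norm_mul] at this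
    norm_num at this
    linarith
  have hlow3 : 28 / 10 ≤ ‖3 + w‖ := by
    have : ‖(3 : ℂ)‖ ≤ ‖3 + w‖ + ‖w‖ := by
      calc ‖(3 : ℂ)‖ = ‖(3 + w) - w‖ := by ring_nf
        _ ≤ _ := norm_sub_le _ _
    norm_num at this
    linarith
  have c2 : ‖3 + 2 * (t * w)‖ ≤ (1 + (1 - t) / 4) * ‖3 + 2 * w‖ := by
    have : ‖3 + 2 * (t * w)‖ ≤ ‖3 + 2 * w‖ + ‖2 * (w - t * w)‖ := by
      calc ‖3 + 2 * (t * w)‖ = ‖(3 + 2 * w) - 2 * (w - t * w)‖ := by ring_nf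
        _ ≤ _ := norm_sub_le _ _
    have h2 : ‖2 * (w - t * w)‖ ≤ 2 * ((1 - t) * (1 / 10)) := by
      rw [norm_mul]
      norm_num
      norm_num at hd
      linarith
    nlinarith
  have c3 : ‖3 + t * w‖ ≤ (1 + (1 - t) / 4) * ‖3 + w‖ := by
    have : ‖3 + t * w‖ ≤ ‖3 + w‖ + ‖w - t * w‖ := by
      calc ‖3 + t * w‖ = ‖(3 + w) - (w - t * w)‖ := by ring_nf
        _ ≤ _ := norm_sub_le _ _
    nlinarith
  set a := ‖1 + w‖ with ha
  set b := ‖1 + t * w‖ with hb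
  set κ := 1 + (1 - t) / 4 with hκ
  have hκ1 : 1 ≤ κ := by rw [hκ]; linarith
  have hκ3 : t ^ 2 * κ ^ 3 ≤ 1 := by
    have : κ ^ 3 * t ^ 2 ≤ 1 := by
      rw [hκ]
      have hq : 0 ≤ (1 - t) := ht'
      nlinarith [mul_nonneg hq hq, mul_nonneg (mul_nonneg hq hq) hq, mul_pos ht0 ht0,
        mul_nonneg (mul_nonneg hq hq) ht0.le, mul_nonneg hq ht0.le,
        mul_nonneg (mul_nonneg hq hq) (mul_pos ht0 ht0).le,
        mul_nonneg hq (mul_pos ht0 ht0).le,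
        mul_nonneg (mul_nonneg (mul_nonneg hq hq) hq) (mul_pos ht0 ht0).le]
    linarith
  constructor
  · rw [e0 _ hne1, e0 _ hne2, norm_div, norm_div, norm_mul, norm_mul, norm_pow, norm_pow, norm_pow,
      norm_pow, norm_mul, Complex.norm_real, Real.norm_of_nonneg ht0.le, ← ha, ← hb,
      div_le_div_iff₀ (by positivity) (by positivity)]
    calc (t * ‖w‖) ^ 2 * ‖3 + 2 * (t * w)‖ * a ^ 2
        ≤ (t * ‖w‖) ^ 2 * (κ * ‖3 + 2 * w‖) * (κ * b) ^ 2 := by gcongr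
      _ = (t ^ 2 * κ ^ 3) * (‖w‖ ^ 2 * ‖3 + 2 * w‖ * b ^ 2) := by ring
      _ ≤ 1 * (‖w‖ ^ 2 * ‖3 + 2 * w‖ * b ^ 2) := by gcongr
      _ = _ := by ring
  · rw [e1 _ hne1, e1 _ hne2, norm_div, norm_div, norm_mul, norm_mul, norm_pow, norm_pow,
      norm_mul, Complex.norm_real, Real.norm_of_nonneg ht0.le, ← ha, ← hb,
      div_le_div_iff₀ (by positivity) (by positivity)]
    have hκ2 : t ^ 2 * κ ^ 2 ≤ 1 := by
      have : t ^ 2 * κ ^ 2 ≤ t ^ 2 * κ ^ 3 := by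
        gcongr
        · norm_num
      linarith
    calc (t * ‖w‖) ^ 2 * ‖3 + t * w‖ * a
        ≤ (t * ‖w‖) ^ 2 * (κ * ‖3 + w‖) * (κ * b) := by gcongr
      _ = (t ^ 2 * κ ^ 2) * (‖w‖ ^ 2 * ‖3 + w‖ * b) := by ring
      _ ≤ 1 * (‖w‖ ^ 2 * ‖3 + w‖ * b) := by gcongr
      _ = _ := by ring

end Pool.Agent.TH166.Deltoid
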