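import Mathlib
import Pool.Agent.TH166.Deltoid3

set_option autoImplicit false

open MvPolynomial Set Topology Filter

namespace Pool.Agent.TH166.Deltoid

/-- the region around a cusp, in the parameter plane centred at the cusp -/
def reg (δ : ℝ) : Set ℂ := {w : ℂ | 1 + w ≠ 0 ∧ w ≠ 0 ∧
  ‖φ (1 + w) 0 - 3‖ ^ 2 + ‖φ (1 + w) 1 - 3‖ ^ 2 < δ ^ 2}

theorem exists_eps : ∃ ε : ℝ, 0 < ε ∧ ∀ δ : ℝ, 0 < δ → δ < ε → reg δ ⊆ Metric.ball 0 (1 / 10) := by
  have hopen : IsOpen {s : {z : ℂ // z ≠ 0} | ‖s.1 - 1‖ < 1 / 10} :=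
    isOpen_lt ((continuous_subtype_val.sub continuous_const).norm) continuous_const
  obtain ⟨O, hO, hO'⟩ := (isClosedEmbedding_ψ.isEmbedding.isInducing.isOpen_iff).1 hopen
  have h1 : φ 1 ∈ O := by
    have : (⟨1, one_ne_zero⟩ : {z : ℂ // z ≠ 0}) ∈ ψ ⁻¹' O := by
      rw [hO']
      simp
    exact this
  obtain ⟨ε, hε, hball⟩ := Metric.isOpen_iff.1 hO _ h1
  refine ⟨ε, hε, fun δ hδ hδε w hw => ?_⟩
  obtain ⟨hw1, hw0, hlt⟩ := hw
  have hφ1 : φ 1 = ![3, 3] := by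
    ext i
    fin_cases i
    · show 2 * (1 : ℂ) + ((1 : ℂ)⁻¹) ^ 2 = 3
      norm_num
    · show 2 * (1 : ℂ)⁻¹ + (1 : ℂ) ^ 2 = 3
      norm_num
  have hmem : φ (1 + w) ∈ O := by
    apply hball
    rw [Metric.mem_ball, dist_pi_lt_iff hε]
    have h0 : ‖φ (1 + w) 0 - 3‖ < ε := by
      have : ‖φ (1 + w) 0 - 3‖ ^ 2 < ε ^ 2 := by
        have h2 : δ ^ 2 < ε ^ 2 := by gcongr
        nlinarith [sq_nonneg ‖φ (1 + w) 1 - 3‖]
      exact lt_of_pow_lt_pow_left₀ 2 hε.le this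
    have h1 : ‖φ (1 + w) 1 - 3‖ < ε := by
      have : ‖φ (1 + w) 1 - 3‖ ^ 2 < ε ^ 2 := by
        have h2 : δ ^ 2 < ε ^ 2 := by gcongr
        nlinarith [sq_nonneg ‖φ (1 + w) 0 - 3‖]
      exact lt_of_pow_lt_pow_left₀ 2 hε.le this
    intro i
    rw [hφ1, dist_eq_norm]
    fin_cases i
    · exact h0
    · exact h1
  have : (⟨1 + w, hw1⟩ : {z : ℂ // z ≠ 0}) ∈ ψ ⁻¹' O := hmem
  rw [hO'] at this
  simpa using this

theorem reg_star {δ : ℝ} (hsub : reg δ ⊆ Metric.ball 0 (1 / 10)) {w : ℂ} (hw : w ∈ reg δ) {t : ℝ}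
    (ht0 : 0 < t) (ht1 : t ≤ 1) : (t : ℂ) * w ∈ reg δ := by
  have hb : ‖w‖ < 1 / 10 := by simpa using hsub hw
  obtain ⟨h1, h2, h3⟩ := hw
  obtain ⟨r0, r1⟩ := ray_aux hb ht0 ht1
  refine ⟨?_, mul_ne_zero (by exact_mod_cast ht0.ne') h2, ?_⟩
  · intro h
    have hn : ‖(t : ℂ) * w‖ = 1 := by
      have : (t : ℂ) * w = -1 := by linear_combination h
      rw [this, norm_neg, norm_one]
    rw [norm_mul, Complex.norm_real, Real.norm_of_nonneg ht0.le] at hn
    have := norm_nonneg w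
    nlinarith
  · refine lt_of_le_of_lt ?_ h3
    gcongr

theorem continuousAt_R : ContinuousAt (fun w : ℂ => ‖φ (1 + w) 0 - 3‖ ^ 2 +
    ‖φ (1 + w) 1 - 3‖ ^ 2) 0 := by
  have hi : ContinuousAt (fun w : ℂ => (1 + w)⁻¹) 0 := by
    refine ContinuousAt.inv₀ (by fun_prop) (by simp)
  simp only [φ_zero, φ_one]
  fun_prop

theorem reg_small {δ : ℝ} (hδ : 0 < δ) : ∃ r : ℝ, 0 < r ∧ ∀ w : ℂ, w ≠ 0 → ‖w‖ < r →
    w ∈ reg δ := by
  have h0 : (fun w : ℂ => ‖φ (1 + w) 0 - 3‖ ^ 2 + ‖φ (1 + w) 1 - 3‖ ^ 2) 0 < δ ^ 2 := by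
    simp only [φ_zero, φ_one]
    norm_num
    positivity
  have h := continuousAt_R.eventually_lt continuousAt_const h0
  obtain ⟨r, hr, hr'⟩ := Metric.eventually_nhds_iff.1 h
  refine ⟨min r 1, lt_min hr one_pos, fun w hw hwr => ⟨?_, hw, ?_⟩⟩
  · intro h
    have hn : ‖w‖ = 1 := by
      have : w = -1 := by linear_combination h
      rw [this, norm_neg, norm_one]
    rw [hn] at hwr
    exact absurd (lt_of_lt_of_le hwr (min_le_right _ _)) (lt_irrefl _)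
  · apply hr'
    simpa using lt_of_lt_of_le hwr (min_le_left _ _)

theorem reg_preconnected {δ : ℝ} (hδ : 0 < δ) (hsub : reg δ ⊆ Metric.ball 0 (1 / 10)) :
    IsPreconnected (reg δ) := by
  obtain ⟨r, hr, hr'⟩ := reg_small hδ
  set r' := r / 2 with hr2
  have hr'0 : 0 < r' := by positivity
  have hr'r : r' < r := by rw [hr2]; linarith
  have hsph : Metric.sphere (0 : ℂ) r' ⊆ reg δ := by
    intro w hw
    have hn : ‖w‖ = r' := by simpa using hw
    apply hr'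
    · intro h
      rw [h, norm_zero] at hn
      exact hr'0.ne hn
    · rw [hn]; exact hr'r
  have hsc : IsPreconnected (Metric.sphere (0 : ℂ) r') := by
    apply isPreconnected_sphere
    rw [Complex.rank_real_complex]
    norm_num
  refine isPreconnected_of_forall (r' : ℂ) ?_
  intro w hw
  have hw0 : w ≠ 0 := hw.2.1
  have hnw : 0 < ‖w‖ := norm_pos_iff.2 hw0
  -- the segment from w to the sphere
  set τ : ℝ := r' / ‖w‖ with hτ
  have hτ0 : 0 < τ := by positivity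
  set L : Set ℂ := (fun t : ℝ => (t : ℂ) * w) '' (uIcc τ 1) with hL
  have hLpre : IsPreconnected L :=
    isPreconnected_uIcc.image _ (by fun_prop)
  have hLsub : L ⊆ reg δ := by
    rintro _ ⟨t, ht, rfl⟩
    have ht0 : 0 < t := lt_of_lt_of_le (lt_min hτ0 one_pos) ht.1
    rcases le_or_gt t 1 with h1 | h1
    · exact reg_star hsub hw ht0 h1
    · have htτ : t ≤ τ := by
        rcases le_max_iff.1 ht.2 with h | h
        · exact h
        · linarith
      apply hr'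
      · exact mul_ne_zero (by exact_mod_cast ht0.ne') hw0
      · rw [norm_mul, Complex.norm_real, Real.norm_of_nonneg ht0.le]
        calc t * ‖w‖ ≤ τ * ‖w‖ := by gcongr
          _ = r' := by rw [hτ]; field_simp
          _ < r := hr'r
  refine ⟨L ∪ Metric.sphere (0 : ℂ) r', union_subset hLsub hsph, Or.inr ?_, Or.inl ?_, ?_⟩
  · simp [abs_of_pos hr'0]
  · exact ⟨1, right_mem_uIcc, by simp⟩
  · refine hLpre.union ((τ : ℂ) * w) ⟨τ, left_mem_uIcc, rfl⟩ ?_ hsc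
    simp only [mem_sphere_iff_norm, sub_zero, norm_mul, Complex.norm_real,
      Real.norm_of_nonneg hτ0.le]
    rw [hτ]; field_simp

/-- cusp points -/
noncomputable def g (ω : ℂ) : Fin 2 → ℂ := ![3 * ω, 3 * ω ^ 2]

theorem g_injective : Function.Injective g := by
  intro a b h
  have := congrFun h 0
  simp only [g, Matrix.cons_val_zero] at this
  exact mul_left_cancel₀ (by norm_num) this

theorem φ_rot {ω : ℂ} (hω : ω ^ 3 = 1) (s : ℂ) : φ (ω * s) = ![ω * φ s 0, ω ^ 2 * φ s 1] := by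
  have h0 : ω ≠ 0 := by
    rintro rfl
    norm_num at hω
  have hinv : ω⁻¹ = ω ^ 2 := by
    field_simp
    linear_combination (-1) * hω
  ext i
  fin_cases i
  · show 2 * (ω * s) + ((ω * s)⁻¹) ^ 2 = ω * (2 * s + (s⁻¹) ^ 2)
    rw [mul_inv, hinv]
    linear_combination ω * (s⁻¹) ^ 2 * hω
  · show 2 * (ω * s)⁻¹ + (ω * s) ^ 2 = ω ^ 2 * (2 * s⁻¹ + s ^ 2)
    rw [mul_inv, hinv]
    ring

theorem cusp_preconnected {ω : ℂ} (hω : ω ^ 3 = 1) :
    ∃ ε : ℝ, 0 < ε ∧ ∀ δ : ℝ, 0 < δ → δ < ε →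
      IsPreconnected {q : Fin 2 → ℂ | eval q F = 0 ∧ q ≠ g ω ∧
        ‖q 0 - g ω 0‖ ^ 2 + ‖q 1 - g ω 1‖ ^ 2 < δ ^ 2} := by
  obtain ⟨ε, hε, hsub⟩ := exists_eps
  have h0 : ω ≠ 0 := by
    rintro rfl
    norm_num at hω
  have hn : ‖ω‖ = 1 := by
    have : ‖ω‖ ^ 3 = 1 := by rw [← norm_pow, hω, norm_one]
    exact (pow_eq_one_iff_of_nonneg (norm_nonneg _) (by norm_num)).1 this
  have hnorm : ∀ s : ℂ, ‖φ (ω * s) 0 - g ω 0‖ = ‖φ s 0 - 3‖ ∧
      ‖φ (ω * s) 1 - g ω 1‖ = ‖φ s 1 - 3‖ := by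
    intro s
    rw [φ_rot hω]
    constructor
    · show ‖ω * φ s 0 - 3 * ω‖ = _
      have : ω * φ s 0 - 3 * ω = ω * (φ s 0 - 3) := by ring
      rw [this, norm_mul, hn, one_mul]
    · show ‖ω ^ 2 * φ s 1 - 3 * ω ^ 2‖ = _
      have : ω ^ 2 * φ s 1 - 3 * ω ^ 2 = ω ^ 2 * (φ s 1 - 3) := by ring
      rw [this, norm_mul, norm_pow, hn, one_pow, one_mul]
  have hgω : φ ω = g ω := by
    have := φ_rot hω 1
    rw [mul_one] at this
    rw [this]
    ext i
    fin_cases i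
    · show ω * (2 * 1 + ((1 : ℂ)⁻¹) ^ 2) = 3 * ω
      norm_num
      ring
    · show ω ^ 2 * (2 * (1 : ℂ)⁻¹ + 1 ^ 2) = 3 * ω ^ 2
      norm_num
      ring
  refine ⟨ε, hε, fun δ hδ hδε => ?_⟩
  have himg : {q : Fin 2 → ℂ | eval q F = 0 ∧ q ≠ g ω ∧
        ‖q 0 - g ω 0‖ ^ 2 + ‖q 1 - g ω 1‖ ^ 2 < δ ^ 2} =
      (fun w => φ (ω * (1 + w))) '' reg δ := by
    ext q
    constructor
    · rintro ⟨hq, hqg, hlt⟩
      obtain ⟨s, hs, rfl⟩ := exists_param hq
      have hsω : s = ω * (1 + (s / ω - 1)) := by field_simp; ring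
      refine ⟨s / ω - 1, ⟨?_, ?_, ?_⟩, ?_⟩
      · have : 1 + (s / ω - 1) = s / ω := by ring
        rw [this]
        exact div_ne_zero hs h0
      · intro h
        apply hqg
        have : s / ω = 1 := by linear_combination h
        have : s = ω := by
          rw [div_eq_one_iff_eq h0] at this
          exact this
        rw [this, hgω]
      · have h1 := hnorm (1 + (s / ω - 1))
        rw [← hsω] at h1
        rw [← h1.1, ← h1.2]
        exact hlt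
      · show φ (ω * (1 + (s / ω - 1))) = φ s
        rw [← hsω]
    · rintro ⟨w, ⟨hw1, hw0, hlt⟩, rfl⟩
      refine ⟨eval_φ (mul_ne_zero h0 hw1), ?_, ?_⟩
      · intro h
        simp only at h
        rw [← hgω] at h
        have := φ_inj (mul_ne_zero h0 hw1) h0 h
        apply hw0
        have h2 : ω * (1 + w) = ω * 1 := by rw [this, mul_one]
        have := mul_left_cancel₀ h0 h2
        linear_combination this
      · simp only
        rw [(hnorm (1 + w)).1, (hnorm (1 + w)).2]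
        exact hlt
  rw [himg]
  refine (reg_preconnected hδ (hsub δ hδ hδε)).image _ ?_
  refine continuousOn_pi.2 ?_
  have hi : ContinuousOn (fun w : ℂ => (ω * (1 + w))⁻¹) (reg δ) := by
    refine ContinuousOn.inv₀ (by fun_prop) ?_
    intro w hw
    exact mul_ne_zero h0 hw.1
  intro i
  fin_cases i
  · show ContinuousOn (fun w : ℂ => 2 * (ω * (1 + w)) + ((ω * (1 + w))⁻¹) ^ 2) (reg δ)
    fun_prop
  · show ContinuousOn (fun w : ℂ => 2 * (ω * (1 + w))⁻¹ + (ω * (1 + w)) ^ 2) (reg δ)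
    fun_prop

/-- The set of unibranch singular points (in the sense of the frozen statement). -/
theorem sing_set : {p : Fin 2 → ℂ | eval p F = 0 ∧ (∀ i : Fin 2, eval p (pderiv i F) = 0) ∧
        ∃ ε : ℝ, 0 < ε ∧ ∀ δ : ℝ, 0 < δ → δ < ε →
          IsPreconnected {q : Fin 2 → ℂ | eval q F = 0 ∧ q ≠ p ∧
            ‖q 0 - p 0‖ ^ 2 + ‖q 1 - p 1‖ ^ 2 < δ ^ 2}} =
      g '' {ω : ℂ | ω ^ 3 = 1} := by
  ext p
  constructor
  · rintro ⟨hp, hd, -⟩
    obtain ⟨s, hs, rfl⟩ := exists_param hp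
    have h0 := eval_φ0 hs
    rw [hd 0, zero_mul] at h0
    have h1 : s ^ 3 = 1 := by
      have : (s ^ 3 - 1) ^ 3 = 0 := by linear_combination (-1 / 4) * h0
      have := pow_eq_zero_iff (three_ne_zero) |>.1 this
      linear_combination this
    refine ⟨s, h1, ?_⟩
    have hinv : s⁻¹ = s ^ 2 := by
      field_simp
      linear_combination (-1) * h1
    ext i
    fin_cases i
    · show 3 * s = 2 * s + (s⁻¹) ^ 2
      rw [hinv]
      linear_combination (-s) * h1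
    · show 3 * s ^ 2 = 2 * s⁻¹ + s ^ 2
      rw [hinv]
      ring
  · rintro ⟨ω, hω, rfl⟩
    have hω' : ω ^ 3 = 1 := hω
    refine ⟨?_, ?_, cusp_preconnected hω'⟩
    · rw [eval_F]
      show (3 * ω) ^ 2 * (3 * ω ^ 2) ^ 2 - 4 * (3 * ω) ^ 3 - 4 * (3 * ω ^ 2) ^ 3
        + 18 * (3 * ω) * (3 * ω ^ 2) - 27 = 0
      linear_combination (-27 * ω ^ 3 + 27) * hω'
    · intro i
      fin_cases i
      · show eval (g ω) (pderiv 0 F) = 0
        rw [eval_F0]
        show 2 * (3 * ω) * (3 * ω ^ 2) ^ 2 - 12 * (3 * ω) ^ 2 + 18 * (3 * ω ^ 2) = 0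
        linear_combination (54 * ω ^ 2) * hω'
      · show eval (g ω) (pderiv 1 F) = 0
        rw [eval_F1]
        show 2 * (3 * ω) ^ 2 * (3 * ω ^ 2) - 12 * (3 * ω ^ 2) ^ 2 + 18 * (3 * ω) = 0
        linear_combination (-54 * ω) * hω'

theorem ncard_cube : ({ω : ℂ | ω ^ 3 = 1} : Set ℂ).ncard = 3 := by
  have hprim : IsPrimitiveRoot (Complex.exp (2 * Real.pi * Complex.I / (3 : ℕ))) 3 :=
    Complex.isPrimitiveRoot_exp 3 (by norm_num)
  have h := hprim.card_nthRootsFinset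
  have hset : ({ω : ℂ | ω ^ 3 = 1} : Set ℂ) = ↑(Polynomial.nthRootsFinset 3 (1 : ℂ)) := by
    ext ω
    simp
  rw [hset, Set.ncard_coe_finset, h]

end Pool.Agent.TH166.Deltoid
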